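import Pool.Agent.H93.CT.Stmts
import Pool.Agent.H68.SW.REA

/-!
CT, module RWB: the new entry at a limit for a column with unboundedly many active rows.
-/

set_option linter.unusedVariables false
set_option synthInstance.maxSize 100000

namespace SW

section
variable {M : Type} [SetStr M] [ZF M]

/-- the first component of a pair -/
noncomputable def rwb_fs (z : M) : M := the (fun x => ∃ y : M, z = opair x y)

/-- the second component of a pair -/
noncomputable def rwb_sn (z : M) : M := the (fun y => ∃ x : M, z = opair x y)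

theorem rwb_fs_df : Fn1 (fun z : M => rwb_fs z) := by unfold rwb_fs; infer_instance

theorem rwb_sn_df : Fn1 (fun z : M => rwb_sn z) := by unfold rwb_sn; infer_instance

instance {n : ℕ} {t : (Fin n → M) → M} [ht : DfT t] : DfT (fun v => rwb_fs (t v)) :=
  rwb_fs_df.comp1 ht

instance {n : ℕ} {t : (Fin n → M) → M} [ht : DfT t] : DfT (fun v => rwb_sn (t v)) :=
  rwb_sn_df.comp1 ht

theorem rwb_fs_eq (x y : M) : rwb_fs (opair x y) = x := by
  refine the_eq ⟨y, rfl⟩ ?_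
  rintro z ⟨y', h⟩
  rw [opair_inj] at h
  exact h.1.symm

theorem rwb_sn_eq (x y : M) : rwb_sn (opair x y) = y := by
  refine the_eq ⟨x, rfl⟩ ?_
  rintro z ⟨y', h⟩
  rw [opair_inj] at h
  exact h.2.symm

theorem rwb_cb_dmn (hc : CbA M) {x : M} (h : Cb x) : Cb (dmn x) := by
  refine hc.sub (hc.img (fun z => rwb_fs z) rwb_fs_df h) fun v hv => ?_
  obtain ⟨y, hy⟩ := mem_dmn.1 hv
  rw [mem_img' rwb_fs_df]
  exact ⟨_, hy, (rwb_fs_eq _ _).symm⟩

/-- the set of all nodes on the levels of `p` -/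
noncomputable def rwb_L (w a p : M) : M := sUn (img a (fun b => sep (NU w) (fun v => Lv p b v)))

theorem rwb_mem_L {w a p v : M} : E v (rwb_L w a p) ↔ ∃ b, E b a ∧ E v (NU w) ∧ Lv p b v := by
  have h1 : Fn1 (fun b : M => sep (NU w) (fun v => Lv p b v)) := inferInstance
  unfold rwb_L
  rw [mem_sUn]
  constructor
  · rintro ⟨y, hy, hv⟩
    rw [mem_img' h1] at hy
    obtain ⟨b, hb, rfl⟩ := hy
    rw [mem_sep' inferInstance] at hv
    exact ⟨b, hb, hv⟩
  · rintro ⟨b, hb, hv⟩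
    refine ⟨_, (mem_img' h1).2 ⟨b, hb, rfl⟩, ?_⟩
    rw [mem_sep' inferInstance]
    exact hv

theorem rwb_cb_L (hcb : CbFacts M) {w Z I a p : M} (hcf : CFacts w Z I) (hp : Cnd w Z I a p)
    (ha : Cb a) : Cb (rwb_L w a p) := by
  refine hcb.iUn (fun b => sep (NU w) (fun v => Lv p b v)) inferInstance ha (fun b hb => ?_)
  obtain ⟨t, g, -, ht, -, htl, -⟩ := hcf.lev hp hb
  refine hcb.sub ht (fun v hv => ?_)
  rw [mem_sep' inferInstance] at hv
  exact (htl v).2 hv.2

/-- the set of all finite sets of natural numbers -/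
noncomputable def rwb_F (M : Type) [SetStr M] [ZF M] : M := sep (pow om) (fun y => Fnt y)

theorem rwb_mem_F {F : M} : E F (rwb_F M) ↔ Sub F om ∧ Fnt F := by
  unfold rwb_F
  rw [mem_sep' inferInstance, mem_pow]

/-- the branch `z` with promise `F'` is above `(v, F)` -/
def rwbG (a p K v F z F' : M) : Prop := Nd a z ∧ Sub v z ∧ Sub F F' ∧ F ≠ F' ∧ Fnt F' ∧
  Sub F' om ∧ Av F' z ∧ (∀ c, E c a → Lv p c (res z c)) ∧
  ∀ c, E c a → Act p K c → ∃ F'', InB p K c (res z c) F''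

/-- the same for the index `d` -/
def rwbD (a p K d z F' : M) : Prop := ∃ b v F n, d = opair (opair (opair b v) F) n ∧
  InB p K b v F ∧ rwbG a p K v F z F'

theorem rwbD_df (a p K : M) : Cl3 (fun d z F' : M => rwbD a p K d z F') := by
  unfold rwbD rwbG; infer_instance

instance {n : ℕ} {a p K : M} {t s u : (Fin n → M) → M} [ht : DfT t] [hs : DfT s] [hu : DfT u] :
    Df (fun v => rwbD a p K (t v) (s v) (u v)) := (rwbD_df a p K).comp3 ht hs hu

/-- the index set -/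
noncomputable def rwb_D (w a p K : M) : M :=
  sep (prod (prod (prod a (rwb_L w a p)) (rwb_F M)) om)
    (fun d => ∃ b v F n : M, d = opair (opair (opair b v) F) n ∧ InB p K b v F)

theorem rwb_mem_D {w a p K b v F n : M} : E (opair (opair (opair b v) F) n) (rwb_D w a p K) ↔
    E b a ∧ E v (rwb_L w a p) ∧ E F (rwb_F M) ∧ E n om ∧ InB p K b v F := by
  unfold rwb_D
  rw [mem_sep' inferInstance, mem_prod, mem_prod, mem_prod]
  constructor
  · rintro ⟨⟨⟨⟨h1, h2⟩, h3⟩, h4⟩, b', v', F', n', h5, h6⟩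
    simp only [opair_inj] at h5
    obtain ⟨⟨⟨rfl, rfl⟩, rfl⟩, rfl⟩ := h5
    exact ⟨h1, h2, h3, h4, h6⟩
  · rintro ⟨h1, h2, h3, h4, h6⟩
    exact ⟨⟨⟨⟨h1, h2⟩, h3⟩, h4⟩, b, v, F, n, rfl, h6⟩

theorem rwb_of_D {w a p K d : M} (h : E d (rwb_D w a p K)) : ∃ b v F n,
    d = opair (opair (opair b v) F) n ∧ E n om ∧ InB p K b v F := by
  have h1 := h
  unfold rwb_D at h1
  rw [mem_sep' inferInstance] at h1
  obtain ⟨-, b, v, F, n, rfl, h2⟩ := h1
  exact ⟨b, v, F, n, rfl, (rwb_mem_D.1 h).2.2.2.1, h2⟩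

theorem rwb_cb_D (hcb : CbFacts M) {w Z I a p K : M} (hcf : CFacts w Z I)
    (hp : Cnd w Z I a p) (ha : Cb a) : Cb (rwb_D w a p K) := by
  refine hcb.sub (hcb.prod (hcb.prod (hcb.prod ha (rwb_cb_L hcb hcf hp ha))
    (y := rwb_F M) (hcb.fsub hcb.om)) hcb.om) fun d hd => ?_
  unfold rwb_D at hd
  rw [mem_sep' inferInstance] at hd
  exact hd.1

end

theorem ct_rwb (hS : SDRStmt) (hBr : BRBStmt) (hA : ACFStmt) (hCb : CBTStmt) (hCF : CFXStmt)
    (hND : NDFStmt) (hZF : ZFXStmt) : RWBStmt := by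
  intro M _ _ w Z I a p K bs hI hp ha hK hun
  have hcb := hCb M
  have hcf := hCF M w Z I bs
  have hnd := hND M
  have hz := hZF M w Z bs
  have haw : E a w := (hcf.ht hp).1
  have hao : Ord a := (hcf.ht hp).2
  have hac : Cb a := bs.w1.2.2 a haw
  have hkl : KLw K p := hp.2.2 K hK
  set D := rwb_D w a p K with hD
  have hDc : Cb D := rwb_cb_D hcb hcf hp hac
  -- members of the index set
  have memD : ∀ b v F n, E n om → InB p K b v F → E (opair (opair (opair b v) F) n) D := by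
    intro b v F n hn h
    obtain ⟨h1, h2, h3, h4⟩ := hkl.2.2.1 b v F h
    obtain ⟨h5, h6, h7⟩ := hcf.lvh hp h1
    rw [hD, rwb_mem_D]
    exact ⟨h5, rwb_mem_L.2 ⟨b, h5, h7, h1⟩, rwb_mem_F.2 ⟨h3, h2⟩, hn, h⟩
  set S : M → M := fun d => sep (pow (prod a om)) (fun z => ∃ F', rwbD a p K d z F') with hSdef
  have hSf : Fn1 S := by rw [hSdef]; infer_instance
  have memS : ∀ {d z}, E z (S d) ↔ Sub z (prod a om) ∧ ∃ F', rwbD a p K d z F' := by
    intro d z
    rw [hSdef]
    simp only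
    rw [mem_sep' inferInstance, mem_pow]
  have subz : ∀ {z}, Nd a z → Sub z (prod a om) := by
    intro z hz y hy
    obtain ⟨x, n, h1, h2, rfl⟩ := hz.1 y hy
    exact mem_prod.2 ⟨h1, h2⟩
  obtain ⟨f, hf1, hf2⟩ := hS M D S hSf hDc (by
    intro d hd e he
    obtain ⟨b, v, F, n, rfl, hn, hb⟩ := rwb_of_D hd
    obtain ⟨z, F', h1, h2, h3, h4, h5, h6, h7, h8, h9, h10⟩ :=
      hBr M w Z I a p K bs hI hp ha hK hun b v F e hb he
    exact ⟨z, memS.2 ⟨subz h1, F', b, v, F, n, rfl, hb, h1, h2, h3, h4, h5, h6, h7, h8, h9⟩, h10⟩)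
  obtain ⟨g1, hg1⟩ := hA M (pow (om : M))
  set pr : M → M := fun d => app g1 (sep (pow om) (fun F' => rwbD a p K d (app f d) F')) with hpr
  have hprf : Fn1 pr := by rw [hpr]; infer_instance
  have hpr1 : ∀ d, E d D → rwbD a p K d (app f d) (pr d) := by
    intro d hd
    have h1 := memS.1 (hf1 d hd)
    obtain ⟨-, F', h2⟩ := h1
    have h3 : E (pr d) (sep (pow om) (fun F' => rwbD a p K d (app f d) F')) := by
      rw [hpr]
      refine hg1 _ (fun y hy => ?_) ⟨F', ?_⟩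
      · rw [mem_sep' inferInstance] at hy
        exact hy.1
      · rw [mem_sep' inferInstance, mem_pow]
        obtain ⟨b, v, F, n, e, hb, hG⟩ := h2
        exact ⟨hG.2.2.2.2.2.1, b, v, F, n, e, hb, hG⟩
    rw [mem_sep' inferInstance] at h3
    exact h3.2
  set x : M := img D (fun d => opair (app f d) (pr d)) with hx
  have hxf : Fn1 (fun d : M => opair (app f d) (pr d)) := by
    rw [hpr]; infer_instance
  have memx : ∀ {z}, E z x ↔ ∃ d, E d D ∧ z = opair (app f d) (pr d) := by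
    intro z
    rw [hx, mem_img' hxf]
  have memx' : ∀ {v F}, E (opair v F) x ↔ ∃ d, E d D ∧ v = app f d ∧ F = pr d := by
    intro v F
    rw [memx]
    constructor
    · rintro ⟨d, hd, h⟩
      rw [opair_inj] at h
      exact ⟨d, hd, h⟩
    · rintro ⟨d, hd, h⟩
      exact ⟨d, hd, by rw [h.1, h.2]⟩
  have hxc : Cb x := hcb.img _ hxf hDc
  -- the good properties of the entries
  have good : ∀ {v F}, E (opair v F) x → ∃ b v0 F0, InB p K b v0 F0 ∧ rwbG a p K v0 F0 v F := by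
    intro v F h
    obtain ⟨d, hd, rfl, rfl⟩ := memx'.1 h
    obtain ⟨b, v0, F0, n, -, hb, hG⟩ := hpr1 d hd
    exact ⟨b, v0, F0, hb, hG⟩
  have nonx : ∃ z, E z x := by
    obtain ⟨d, -, -, v, F, h⟩ := hun emp (emp_mem_ord hao ha)
    exact ⟨_, memx.2 ⟨_, memD d v F emp emp_mem_om h, rfl⟩⟩
  refine ⟨x, dmn x, fun v => mem_dmn, ?_, ?_, ?_, nonx⟩
  · refine ⟨⟨hxc, ?_⟩, ?_, ?_, ?_, ?_, ?_, fun _ _ => nonx⟩
    · intro z hz
      obtain ⟨d, -, rfl⟩ := memx.1 hz
      exact ⟨_, _, rfl⟩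
    · intro v F h
      obtain ⟨b, v0, F0, -, hG⟩ := good h
      exact ⟨mem_dmn.2 ⟨F, h⟩, hG.2.2.2.2.1, hG.2.2.2.2.2.1, hG.2.2.2.2.2.2.1⟩
    · intro v F F' h h'
      obtain ⟨d, hd, e1, rfl⟩ := memx'.1 h
      obtain ⟨d', hd', e2, rfl⟩ := memx'.1 h'
      have : d = d' := by
        by_contra hne
        exact hf2 d d' hd hd' hne (by rw [← e1, ← e2])
      rw [this]
    · intro c v F e hc hb _ he
      by_contra hcon
      push Not at hcon
      have hall : ∀ n, E n om → E (app f (opair (opair (opair c v) F) n)) e := by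
        intro n hn
        have hd := memD c v F n hn hb
        obtain ⟨b', v0, F0, n', e1, -, hG⟩ := hpr1 _ hd
        simp only [opair_inj] at e1
        obtain ⟨⟨⟨rfl, rfl⟩, rfl⟩, rfl⟩ := e1
        exact hcon _ _ (memx'.2 ⟨_, hd, rfl, rfl⟩) hG.2.1 hG.2.2.1 hG.2.2.2.1
      have hkf : Fn1 (fun z : M => rwb_sn (the (fun d => E d D ∧ app f d = z))) := inferInstance
      refine not_fnt_om finF (finF.sub (finF.img _ hkf he) fun n hn => ?_)
      rw [mem_img' hkf]
      refine ⟨_, hall n hn, ?_⟩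
      have hd := memD c v F n hn hb
      have e1 : the (fun d => E d D ∧ app f d = app f (opair (opair (opair c v) F) n)) =
          opair (opair (opair c v) F) n := by
        refine the_eq ⟨hd, rfl⟩ ?_
        rintro d' ⟨hd', h⟩
        by_contra hne
        exact hf2 d' _ hd' hd hne h
      rw [e1, rwb_sn_eq]
    · intro c v F hc h hac
      obtain ⟨b, v0, F0, -, hG⟩ := good h
      exact hG.2.2.2.2.2.2.2.2 c hc hac
    · intro v F v' F' u h h' hm
      obtain ⟨b, v0, F0, -, hG⟩ := good h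
      obtain ⟨b', v0', F0', -, hG'⟩ := good h'
      obtain ⟨d, n, n', h1, h2, h3, h4, h5⟩ := id hm
      have hda : E d a := by
        obtain ⟨x', n'', hx', -, e⟩ := hG.1.1 _ h1
        rw [opair_inj] at e
        rw [e.1]
        exact hx'
      obtain ⟨c, hca, hdc, hact⟩ := hun d hda
      obtain ⟨G1, hG1⟩ := hG.2.2.2.2.2.2.2.2 c hca hact
      obtain ⟨G2, hG2⟩ := hG'.2.2.2.2.2.2.2.2 c hca hact
      have hne : res v c ≠ res v' c := by
        intro e
        have h6 : E (opair d n) (res v c) := opair_mem_res.2 ⟨h1, hdc⟩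
        rw [e] at h6
        exact h3 (hG'.1.2.2.1 d n n' (opair_mem_res.1 h6).1 h2)
      exact hkl.2.2.2.2.2.2.1 c _ G1 _ G2 u hG1 hG2
        (hnd.mdn hao hG.1 hG'.1 hca hne hm)
  · refine hz.row haw hxc ?_ ?_
    · intro z hz
      obtain ⟨d, -, rfl⟩ := memx.1 hz
      exact ⟨_, _, rfl⟩
    · intro v F h
      obtain ⟨b, v0, F0, -, hG⟩ := good h
      exact ⟨hG.1, hG.2.2.2.2.1, hG.2.2.2.2.2.1⟩
  · intro v hv
    obtain ⟨F, h⟩ := mem_dmn.1 hv
    obtain ⟨b, v0, F0, -, hG⟩ := good h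
    exact ⟨hG.1, hG.2.2.2.2.2.2.2.1⟩

end SW
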