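import Pool.Agent.H24.CT.RWB

/-!
CT, module EXT: every condition has an extension with one more row.
-/

set_option linter.unusedVariables false
set_option synthInstance.maxSize 100000

namespace SW

section
variable {M : Type} [SetStr M] [ZF M]

/-- `RowOK` as a conjunction -/
def extR (a p t K x : M) : Prop :=
  (Cb x ∧ ∀ z, E z x → ∃ v F, z = opair v F) ∧
  (∀ v F, E (opair v F) x → E v t ∧ Fnt F ∧ Sub F om ∧ Av F v) ∧
  (∀ v F F', E (opair v F) x → E (opair v F') x → F = F') ∧
  (∀ c v F e, E c a → InB p K c v F → (∃ z, E z x) → Fnt e →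
    ∃ v' F', E (opair v' F') x ∧ Sub v v' ∧ Sub F F' ∧ F ≠ F' ∧ ¬ E v' e) ∧
  (∀ c v F, E c a → E (opair v F) x → Act p K c → ∃ F', InB p K c (res v c) F') ∧
  (∀ v F v' F' u, E (opair v F) x → E (opair v' F') x → Mt v v' u →
    ∃ r, Sub r p ∧ E (opair u r) K) ∧
  (a ≠ emp → (∀ c, E c a → ∃ d, E d a ∧ E c d ∧ Act p K d) → ∃ z, E z x)

theorem extR_of {a p t K x : M} (h : RowOK a p t K x) : extR a p t K x :=
  ⟨h.ctb, h.nod, h.fn, h.up, h.down, h.mt, h.lim⟩

theorem extR_to {a p t K x : M} (h : extR a p t K x) : RowOK a p t K x :=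
  ⟨h.1, h.2.1, h.2.2.1, h.2.2.2.1, h.2.2.2.2.1, h.2.2.2.2.2.1, h.2.2.2.2.2.2⟩

/-- a good new entry for the column `K` -/
def extG (a p K x : M) : Prop := extR a p (dmn x) K x ∧
  (∀ v, E v (dmn x) → Nd a v ∧ ∀ c, E c a → Lv p c (res v c)) ∧ ∃ z, E z x

theorem extG_df (a p : M) : Cl2 (fun K x : M => extG a p K x) := by
  unfold extG extR; infer_instance

instance {n : ℕ} {a p : M} {t s : (Fin n → M) → M} [ht : DfT t] [hs : DfT s] :
    Df (fun v => extG a p (t v) (s v)) := (extG_df a p).comp2 ht hs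

/-- the column `K` has unboundedly many active rows -/
def extU (a p K : M) : Prop := ∀ c, E c a → ∃ d, E d a ∧ E c d ∧ Act p K d

theorem extU_df (a p : M) : Cl (fun K : M => extU a p K) := by
  unfold extU; infer_instance

instance {n : ℕ} {a p : M} {t : (Fin n → M) → M} [ht : DfT t] :
    Df (fun v => extU a p (t v)) := (extU_df a p).comp1 ht

/-- the empty entry is good for a column without unboundedly many active rows -/
theorem ext_rowE {a p t K : M} (h : a ≠ emp → ¬ extU a p K) : RowOK a p t K emp := by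
  refine ⟨⟨⟨emp, fun y hy => absurd hy (not_mem_emp y),
    fun y _ _ hy => absurd hy (not_mem_emp y)⟩, fun z hz => absurd hz (not_mem_emp z)⟩,
    fun v F h => absurd h (not_mem_emp _), fun v F F' h => absurd h (not_mem_emp _), ?_,
    fun c v F _ h => absurd h (not_mem_emp _), fun v F v' F' u h => absurd h (not_mem_emp _),
    fun h1 h2 => absurd h2 (h h1)⟩
  rintro c v F e - - ⟨z, hz⟩
  exact absurd hz (not_mem_emp z)

/-- the level above the level `t0` -/
noncomputable def extS (b t0 : M) : M :=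
  sUn (img t0 (fun v => img (sep om (fun n => ∀ x, ¬ E (opair x n) v))
    (fun n => ins (opair b n) v)))

theorem mem_extS {b t0 z : M} : E z (extS b t0) ↔ ∃ v n, E v t0 ∧ E n om ∧
    (∀ x, ¬ E (opair x n) v) ∧ z = ins (opair b n) v := by
  have h1 : Fn1 (fun v : M => img (sep om (fun n => ∀ x, ¬ E (opair x n) v))
    (fun n => ins (opair b n) v)) := inferInstance
  unfold extS
  rw [mem_sUn]
  constructor
  · rintro ⟨y, hy, hz⟩
    rw [mem_img' h1] at hy
    obtain ⟨v, hv, rfl⟩ := hy
    rw [mem_img' inferInstance] at hz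
    obtain ⟨n, hn, rfl⟩ := hz
    rw [mem_sep' inferInstance] at hn
    exact ⟨v, n, hv, hn.1, hn.2, rfl⟩
  · rintro ⟨v, n, hv, hn, hn2, rfl⟩
    refine ⟨_, (mem_img' h1).2 ⟨v, hv, rfl⟩, (mem_img' inferInstance).2 ⟨n, ?_, rfl⟩⟩
    rw [mem_sep' inferInstance]
    exact ⟨hn, hn2⟩

theorem cb_extS (hcb : CbFacts M) {b t0 : M} (h : Cb t0) : Cb (extS b t0) := by
  refine hcb.iUn (fun v => img (sep om (fun n => ∀ x, ¬ E (opair x n) v))
    (fun n => ins (opair b n) v)) inferInstance h (fun v hv => ?_)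
  refine hcb.img _ inferInstance (hcb.sub hcb.om fun n hn => ?_)
  rw [mem_sep' inferInstance] at hn
  exact hn.1

/-- `z` is a branch above `v`, without values in `F` -/
def extB (a p v F z : M) : Prop := Nd a z ∧ Sub v z ∧ Av F z ∧ ∀ c, E c a → Lv p c (res z c)

theorem extB_df (a p : M) : Cl3 (fun v F z : M => extB a p v F z) := by
  unfold extB; infer_instance

instance {n : ℕ} {a p : M} {t s u : (Fin n → M) → M} [ht : DfT t] [hs : DfT s] [hu : DfT u] :
    Df (fun v => extB a p (t v) (s v) (u v)) := (extB_df a p).comp3 ht hs hu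

/-- the chosen branches -/
noncomputable def extT (w a p g : M) : M :=
  sUn (img (rwb_L w a p) (fun v => img (sep (rwb_F M) (fun F => Av F v))
    (fun F => app g (sep (pow (prod a om)) (fun z => extB a p v F z)))))

theorem mem_extT {w a p g z : M} : E z (extT w a p g) ↔ ∃ v F, E v (rwb_L w a p) ∧
    E F (rwb_F M) ∧ Av F v ∧ z = app g (sep (pow (prod a om)) (fun z => extB a p v F z)) := by
  have h1 : Fn1 (fun v : M => img (sep (rwb_F M) (fun F => Av F v))
    (fun F => app g (sep (pow (prod a om)) (fun z => extB a p v F z)))) := inferInstance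
  unfold extT
  rw [mem_sUn]
  constructor
  · rintro ⟨y, hy, hz⟩
    rw [mem_img' h1] at hy
    obtain ⟨v, hv, rfl⟩ := hy
    rw [mem_img' inferInstance] at hz
    obtain ⟨F, hF, rfl⟩ := hz
    rw [mem_sep' inferInstance] at hF
    exact ⟨v, F, hv, hF.1, hF.2, rfl⟩
  · rintro ⟨v, F, hv, hF, hF2, rfl⟩
    refine ⟨_, (mem_img' h1).2 ⟨v, hv, rfl⟩, (mem_img' inferInstance).2 ⟨F, ?_, rfl⟩⟩
    rw [mem_sep' inferInstance]
    exact ⟨hF, hF2⟩

theorem cb_extT (hcb : CbFacts M) {w a p g : M} (h : Cb (rwb_L w a p)) :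
    Cb (extT w a p g) := by
  refine hcb.iUn (fun v => img (sep (rwb_F M) (fun F => Av F v))
    (fun F => app g (sep (pow (prod a om)) (fun z => extB a p v F z)))) inferInstance h
    (fun v hv => ?_)
  refine hcb.img _ inferInstance (hcb.sub (y := sep (rwb_F M) (fun F => Av F v))
    (x := rwb_F M) (hcb.fsub hcb.om) fun F hF => ?_)
  rw [mem_sep' inferInstance] at hF
  exact hF.1

end

theorem ct_ext (hR : ROWStmt) (hW : RWBStmt) (hBT : BRTStmt) (hA : ACFStmt) (hCb : CBTStmt)
    (hCF : CFXStmt) (hND : NDFStmt) : EXTStmt := by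
  intro M _ _ w Z I a p g bs hI hp hg
  have hcb := hCb M
  have hcf := hCF M w Z I bs
  have hnd := hND M
  have haw : E a w := (hcf.ht hp).1
  have hao : Ord a := (hcf.ht hp).2
  have hac : Cb a := bs.w1.2.2 a haw
  by_cases ha : a = emp
  · -- the first row
    subst ha
    have hno : ∀ {K}, Col p K → False := by
      rintro K ⟨b, x, h⟩
      exact not_mem_emp b (hcf.row hp h).1
    suffices hL : LevOK emp p (sing emp) by
      obtain ⟨q, h1, h2, h3, -⟩ := hR M w Z I emp p (sing emp) g (fun _ => emp) bs hI hp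
        inferInstance hL hg (fun K _ hc => absurd hc (fun h => hno h))
      exact ⟨q, sing emp, h1, h2, h3⟩
    refine ⟨?_, ?_, ?_, ?_, ?_⟩
    · exact hcb.sub hcb.om fun v hv => by
        rw [mem_sing] at hv; rw [hv]; exact emp_mem_om
    · intro v hv
      rw [mem_sing] at hv
      rw [hv]
      exact hnd.e0
    · intro _
      rw [mem_sing]
    · intro v c _ hc
      exact absurd hc (not_mem_emp c)
    · intro c v F hc
      exact absurd hc (not_mem_emp c)
  by_cases hs : ∃ b, a = suc b
  · -- successor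
    obtain ⟨b, rfl⟩ := hs
    have hba : E b (suc b) := mem_suc.2 (Or.inr rfl)
    have hbo : Ord b := hao.mem hba
    obtain ⟨t0, g0, hE0, ht0, -, htl, -⟩ := hcf.lev hp hba
    have hnu : ∀ K, ¬ extU (suc b) p K := by
      intro K h
      obtain ⟨d, hd, hbd, -⟩ := h b hba
      rw [mem_suc] at hd
      rcases hd with hd | rfl
      · exact not_mem_self b (hbo.trans hd hbd)
      · exact not_mem_self _ hbd
    suffices hL : LevOK (suc b) p (extS b t0) by
      obtain ⟨q, h1, h2, h3, -⟩ := hR M w Z I (suc b) p (extS b t0) g (fun _ => emp) bs hI hp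
        inferInstance hL hg (fun K _ _ => ext_rowE (fun _ => hnu K))
      exact ⟨q, extS b t0, h1, h2, h3⟩
    refine ⟨?_, ?_, ?_, ?_, ?_⟩
    · exact cb_extS hcb ht0
    · intro z hz
      obtain ⟨v, n, hv, hn, hn2, rfl⟩ := mem_extS.1 hz
      have hv' := hcf.lvh hp ((htl v).1 hv)
      exact (hnd.ext hbo hv'.2.1 hn hn2).1
    · intro h
      exact absurd h ha
    · intro z c hz hc
      obtain ⟨v, n, hv, hn, hn2, rfl⟩ := mem_extS.1 hz
      have hv' := hcf.lvh hp ((htl v).1 hv)
      have hr := (hnd.ext hbo hv'.2.1 hn hn2).2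
      rw [mem_suc] at hc
      rcases hc with hc | rfl
      · have h1 := hp.2.1.2.2.1 b v c ((htl v).1 hv) hc
        have h2 : res (res (ins (opair b n) v) b) c = res (ins (opair b n) v) c :=
          hnd.rr (hbo.1 c hc)
        rw [← h2, hr]
        exact h1
      · rw [hr]
        exact (htl v).1 hv
    · intro c v F hc hl hF hFo hav
      have h1 : ∃ v1, Lv p b v1 ∧ Sub v v1 ∧ Av F v1 := by
        rw [mem_suc] at hc
        rcases hc with hc | rfl
        · exact hp.2.1.2.2.2 c v b _ F hl hc hE0 hF hFo hav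
        · exact ⟨v, hl, Sub.refl v, hav⟩
      obtain ⟨v1, hv1, hs1, hav1⟩ := h1
      have hv' := hcf.lvh hp hv1
      obtain ⟨n, hn, hnF, hn2⟩ := hv'.2.1.2.2.2.2 F hF
      refine ⟨ins (opair b n) v1, mem_extS.2 ⟨v1, n, (htl v1).2 hv1, hn, hn2, rfl⟩, ?_, ?_⟩
      · exact fun y hy => mem_ins.2 (Or.inl (hs1 y hy))
      · intro m x hm hx
        rw [mem_ins] at hx
        rcases hx with hx | hx
        · exact hav1 m x hm hx
        · rw [opair_inj] at hx
          exact hnF (hx.2 ▸ hm)
  · -- limit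
    have hlim : ∀ c, E c a → E (suc c) a := by
      intro c hc
      have hco : Ord c := hao.mem hc
      rcases (Ord_suc hco).tri hao with h | h | h
      · exact h
      · exact absurd ⟨c, h.symm⟩ hs
      · rw [mem_suc] at h
        rcases h with h | rfl
        · exact absurd (hao.trans hc h) (not_mem_self a)
        · exact absurd hc (not_mem_self a)
    obtain ⟨g0, hg0⟩ := hA M Z
    obtain ⟨g1, hg1⟩ := hA M (pow (prod a om))
    set h : M → M := fun K => sep (app g0 (sep Z (fun x => extG a p K x)))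
      (fun _ => extU a p K) with hh
    have hhf : Fn1 h := by rw [hh]; infer_instance
    have memh : ∀ {K z}, E z (h K) ↔ E z (app g0 (sep Z (fun x => extG a p K x))) ∧
        extU a p K := by
      intro K z
      rw [hh]
      simp only
      rw [mem_sep' inferInstance]
    have hgood : ∀ K, E K I → extU a p K → extG a p K (h K) := by
      intro K hK hu
      have e1 : h K = app g0 (sep Z (fun x => extG a p K x)) := by
        apply ext
        intro z
        rw [memh]
        exact ⟨fun h => h.1, fun h => ⟨h, hu⟩⟩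
      obtain ⟨x, t, h1, h2, h3, h4, h5⟩ := hW M w Z I a p K bs hI hp ha hK hu
      have e2 : t = dmn x := by
        apply SW.ext
        intro z
        rw [h1, mem_dmn]
      subst e2
      have h6 : E (h K) (sep Z (fun x => extG a p K x)) := by
        rw [e1]
        refine hg0 _ (fun y hy => ?_) ⟨x, ?_⟩
        · rw [mem_sep' inferInstance] at hy
          exact hy.1
        · rw [mem_sep' inferInstance]
          exact ⟨h3, extR_of h2, h4, h5⟩
      rw [mem_sep' inferInstance] at h6
      exact h6.2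
    have hbad : ∀ K, ¬ extU a p K → h K = emp := by
      intro K hu
      apply eq_emp
      intro z hz
      exact hu (memh.1 hz).2
    have hbr : ∀ v F, E v (rwb_L w a p) → E F (rwb_F M) → Av F v →
        extB a p v F (app g1 (sep (pow (prod a om)) (fun z => extB a p v F z))) := by
      intro v F hv hF hav
      obtain ⟨b, hb, hvN, hl⟩ := rwb_mem_L.1 hv
      obtain ⟨hFo, hFf⟩ := rwb_mem_F.1 hF
      obtain ⟨z, h1, h2, h3, h4⟩ := hBT M w Z I a p bs hp hlim b v F hl hFf hFo hav
      have h6 : E (app g1 (sep (pow (prod a om)) (fun z => extB a p v F z)))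
          (sep (pow (prod a om)) (fun z => extB a p v F z)) := by
        refine hg1 _ (fun y hy => ?_) ⟨z, ?_⟩
        · rw [mem_sep' inferInstance] at hy
          exact hy.1
        · rw [mem_sep' inferInstance, mem_pow]
          refine ⟨fun y hy => ?_, h1, h2, h3, h4⟩
          obtain ⟨x, n, h1, h2, rfl⟩ := h1.1 y hy
          exact mem_prod.2 ⟨h1, h2⟩
      rw [mem_sep' inferInstance] at h6
      exact h6.2
    -- the nodes in the new entries
    set C : M := sep (dmn p) (fun K => E K I) with hC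
    have hCf : Fn1 (fun K : M => dmn (h K)) := by rw [hh]; infer_instance
    set t1 : M := sUn (img C (fun K => dmn (h K))) with ht1
    have mem1 : ∀ {v}, E v t1 ↔ ∃ K, E K I ∧ Col p K ∧ ∃ F, E (opair v F) (h K) := by
      intro v
      rw [ht1, mem_sUn]
      constructor
      · rintro ⟨y, hy, hv⟩
        rw [mem_img' hCf] at hy
        obtain ⟨K, hK, rfl⟩ := hy
        rw [hC, mem_sep' inferInstance, mem_dmn] at hK
        obtain ⟨⟨y, hy⟩, hKI⟩ := hK
        obtain ⟨K', b, x, -, -, -, e⟩ := hp.1.2.2.1 _ hy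
        rw [opair_inj] at e
        obtain ⟨rfl, rfl⟩ := e
        exact ⟨K, hKI, ⟨b, x, hy⟩, mem_dmn.1 hv⟩
      · rintro ⟨K, hKI, ⟨b, x, hK⟩, hv⟩
        refine ⟨_, (mem_img' hCf).2 ⟨K, ?_, rfl⟩, mem_dmn.2 hv⟩
        rw [hC, mem_sep' inferInstance, mem_dmn]
        exact ⟨⟨_, hK⟩, hKI⟩
    have cb1 : Cb t1 := by
      refine hcb.iUn _ hCf (hcb.sub (rwb_cb_dmn hcb.toCbA hp.1.2.1) fun K hK => ?_) ?_
      · rw [hC, mem_sep' inferInstance] at hK
        exact hK.1
      · intro K hK
        rw [hC, mem_sep' inferInstance] at hK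
        by_cases hu : extU a p K
        · exact rwb_cb_dmn hcb.toCbA (hgood K hK.2 hu).1.1.1
        · rw [hbad K hu]
          refine rwb_cb_dmn hcb.toCbA (hcb.fin finF.emp)
    have good1 : ∀ {v}, E v t1 → Nd a v ∧ ∀ c, E c a → Lv p c (res v c) := by
      intro v hv
      obtain ⟨K, hKI, hKc, F, hF⟩ := mem1.1 hv
      by_cases hu : extU a p K
      · exact (hgood K hKI hu).2.1 v (mem_dmn.2 ⟨F, hF⟩)
      · rw [hbad K hu] at hF
        exact absurd hF (not_mem_emp _)
    have good2 : ∀ {v}, E v (extT w a p g1) → Nd a v ∧ ∀ c, E c a → Lv p c (res v c) := by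
      intro z hz
      obtain ⟨v, F, hv, hF, hav, rfl⟩ := mem_extT.1 hz
      have := hbr v F hv hF hav
      exact ⟨this.1, this.2.2.2⟩
    have good : ∀ {v}, E v (bun t1 (extT w a p g1)) →
        Nd a v ∧ ∀ c, E c a → Lv p c (res v c) := by
      intro v hv
      rw [mem_bun] at hv
      rcases hv with hv | hv
      · exact good1 hv
      · exact good2 hv
    have hRow : ∀ K, E K I → Col p K → RowOK a p (bun t1 (extT w a p g1)) K (h K) := by
      intro K hKI hKc
      by_cases hu : extU a p K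
      · have h8 := (hgood K hKI hu).1
        refine extR_to ⟨h8.1, ?_, h8.2.2⟩
        intro v F hv
        exact ⟨mem_bun.2 (Or.inl (mem1.2 ⟨K, hKI, hKc, F, hv⟩)), (h8.2.1 v F hv).2⟩
      · rw [hbad K hu]
        exact ext_rowE (fun _ => hu)
    suffices hL : LevOK a p (bun t1 (extT w a p g1)) by
      obtain ⟨q, h1, h2, h3, -⟩ := hR M w Z I a p (bun t1 (extT w a p g1)) g h bs hI hp hhf
        hL hg hRow
      exact ⟨q, _, h1, h2, h3⟩
    refine ⟨?_, ?_, ?_, ?_, ?_⟩
    · exact hcb.bun cb1 (cb_extT hcb (rwb_cb_L hcb hcf hp hac))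
    · exact fun v hv => (good hv).1
    · exact fun h => absurd h ha
    · exact fun v c hv hc => (good hv).2 c hc
    · intro c v F hc hl hF hFo hav
      have hv : E v (rwb_L w a p) := rwb_mem_L.2 ⟨c, hc, (hcf.lvh hp hl).2.2, hl⟩
      have hF' : E F (rwb_F M) := rwb_mem_F.2 ⟨hFo, hF⟩
      have h7 := hbr v F hv hF' hav
      exact ⟨_, mem_bun.2 (Or.inr (mem_extT.2 ⟨v, F, hv, hF', hav, rfl⟩)), h7.2.1, h7.2.2.1⟩

end SW
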